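import Mathlib

/-!
# Blueprint OL (MP_036a22_al): definitions

A group `G` acting oligomorphically with stabilisers of type `FP_∞` and without Thompson's group `F`.
-/

set_option autoImplicit false

namespace Pool.Agent.Helper40.OL

/-! ## 1. Finiteness properties -/

/-- The trivial module `ℤ` over the group ring `ℤ[G]`. -/
abbrev Triv (G : Type) [Group G] : Type := (Representation.trivial ℤ G ℤ).asModule

/-- The group `G` has type `FP_n`: some projective resolution of the trivial module has finitely generated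
terms in degrees `≤ n`. -/
def TypeFP (n : ℕ) (G : Type) [Group G] : Prop :=
  ∃ (P : ℕ → Type) (_ : ∀ i, AddCommGroup (P i)) (_ : ∀ i, Module (MonoidAlgebra ℤ G) (P i))
    (d : ∀ i, P (i + 1) →ₗ[MonoidAlgebra ℤ G] P i) (ε : P 0 →ₗ[MonoidAlgebra ℤ G] Triv G),
    (∀ i, Module.Projective (MonoidAlgebra ℤ G) (P i)) ∧ Function.Surjective ε ∧
    LinearMap.range (d 0) = LinearMap.ker ε ∧
    (∀ i, LinearMap.range (d (i + 1)) = LinearMap.ker (d i)) ∧
    ∀ i ≤ n, Module.Finite (MonoidAlgebra ℤ G) (P i)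

/-- Modules of type `FP_n` over a ring (recursive form, with finitely generated free modules). -/
def FPn {R : Type} [Ring R] : ℕ → ∀ (M : Type) [AddCommGroup M] [Module R M], Prop
  | 0, M, _, _ => Module.Finite R M
  | n + 1, M, _, _ => ∃ (k : ℕ) (f : (Fin k → R) →ₗ[R] M), Function.Surjective f ∧
      FPn (R := R) n (LinearMap.ker f)

/-- The permutation representation `ℤ[X]`. -/
noncomputable def permRep (G X : Type) [Group G] [MulAction G X] : Representation ℤ G (X →₀ ℤ) where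
  toFun g := Finsupp.lmapDomain ℤ ℤ (fun x => g • x)
  map_one' := by
    refine LinearMap.ext fun z => ?_
    simp only [one_smul, Finsupp.lmapDomain_apply, Module.End.one_apply]
    exact Finsupp.mapDomain_id
  map_mul' g h := by
    refine LinearMap.ext fun z => ?_
    simp only [Finsupp.lmapDomain_apply, Module.End.mul_apply]
    rw [← Finsupp.mapDomain_comp]
    congr 1
    funext x
    simp [mul_smul]

/-- The permutation module `ℤ[X]` over `ℤ[G]`. -/
abbrev PM (G X : Type) [Group G] [MulAction G X] : Type := (permRep G X).asModule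

/-! ## 2. Split systems and their cube complex -/

/-- A split system: `G`-sets `V n` (vertices with `n` leaves) with split maps `s n i : V n → V (n+1)`
(splitting the leaf `i`; relevant for `i < n` only). -/
structure SplitSys (G : Type) [Group G] where
  V : ℕ → Type
  act : ∀ n, MulAction G (V n)
  s : ∀ n, ℕ → V n → V (n + 1)
  s_smul : ∀ (n i : ℕ) (g : G) (v : V n), s n i (g • v) = g • s n i v
  s_s : ∀ (n i j : ℕ) (v : V n), i < j → j < n → s (n + 1) (j + 1) (s n i v) = s (n + 1) i (s n j v)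

attribute [instance] SplitSys.act

variable {G : Type} [Group G]

/-- All vertices. -/
abbrev Vt (S : SplitSys G) : Type := Σ n, S.V n

instance (S : SplitSys G) : MulAction G (Vt S) where
  smul g x := ⟨x.1, g • x.2⟩
  one_smul x := by
    obtain ⟨n, v⟩ := x
    show (⟨n, (1 : G) • v⟩ : Vt S) = ⟨n, v⟩
    rw [one_smul]
  mul_smul g h x := by
    obtain ⟨n, v⟩ := x
    show (⟨n, (g * h) • v⟩ : Vt S) = ⟨n, g • h • v⟩
    rw [mul_smul]

/-- Splitting the leaf `i`. -/
def sV (S : SplitSys G) (i : ℕ) (x : Vt S) : Vt S := ⟨x.1 + 1, S.s x.1 i x.2⟩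

/-- `Le x y`: `y` arises from `x` by successive (legal) splits. -/
inductive Le (S : SplitSys G) : Vt S → Vt S → Prop
  | refl (x : Vt S) : Le S x x
  | step {x y : Vt S} (i : ℕ) (hi : i < x.1) (h : Le S (sV S i x) y) : Le S x y

/-- A (raw) cube: a vertex and a list of leaves which are split or not; in a cube the list is strictly
increasing and bounded by the number of leaves (`Ok`). -/
abbrev Cb (S : SplitSys G) : Type := Vt S × List ℕ

/-- Cubes: dimension `k`, top level `N`. -/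
def Ok (S : SplitSys G) (k N : ℕ) (c : Cb S) : Prop :=
  c.2.Pairwise (· < ·) ∧ (∀ a ∈ c.2, a < c.1.1) ∧ c.2.length = k ∧ c.1.1 + k = N

/-- put `a` in front of the list of a cube -/
def csA {S : SplitSys G} (a : ℕ) (c : Cb S) : Cb S := (c.1, a :: c.2)

/-- The boundary of a cube. -/
noncomputable def bdRec (S : SplitSys G) (x : Vt S) : List ℕ → (Cb S →₀ ℤ)
  | [] => 0
  | a :: L => Finsupp.single (sV S a x, L.map (· + 1)) 1 - Finsupp.single (x, L) 1
      - Finsupp.mapDomain (csA a) (bdRec S x L)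

/-- The boundary. -/
noncomputable def bd (S : SplitSys G) : (Cb S →₀ ℤ) →ₗ[ℤ] (Cb S →₀ ℤ) :=
  Finsupp.linearCombination ℤ (fun c => bdRec S c.1 c.2)

/-- The part of the boundary with the same top vertex. -/
noncomputable def fbRec (S : SplitSys G) (x : Vt S) : List ℕ → (Cb S →₀ ℤ)
  | [] => 0
  | a :: L => Finsupp.single (sV S a x, L.map (· + 1)) 1 - Finsupp.mapDomain (csA a) (fbRec S x L)

/-- The part of the boundary with the same top vertex. -/
noncomputable def fb (S : SplitSys G) : (Cb S →₀ ℤ) →ₗ[ℤ] (Cb S →₀ ℤ) :=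
  Finsupp.linearCombination ℤ (fun c => fbRec S c.1 c.2)

/-- chains supported on a set of cubes -/
abbrev Sup {X : Type} (T : Set X) : Submodule ℤ (X →₀ ℤ) := Finsupp.supported ℤ ℤ T

/-- the cubes below `y` -/
def Below (S : SplitSys G) (y : Vt S) (k : ℕ) : Set (Cb S) :=
  {c | (∃ N, Ok S k N c) ∧ Le S c.1 y ∧ ∀ a ∈ c.2, Le S (sV S a c.1) y}

/-- admissibility: first property -/
def Adm2 (S : SplitSys G) : Prop := ∀ (x y : Vt S) (a b : ℕ), a < b → b < x.1 →
  Le S (sV S a x) y → Le S (sV S b x) y → Le S (sV S (b + 1) (sV S a x)) y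

/-- admissibility: second property -/
def Adm3 (S : SplitSys G) : Prop := ∀ (x y : Vt S) (a b : ℕ), a < b → b < x.1 →
  Le S (sV S b x) y → Le S (sV S a (sV S b x)) y → Le S (sV S a x) y

/-- directedness -/
def Dir (S : SplitSys G) : Prop := ∀ x x' : Vt S, ∃ y, Le S x y ∧ Le S x' y

/-- exactness of the top-preserving complexes in degree `j` at level `N` -/
def DescEx (S : SplitSys G) (N j : ℕ) : Prop :=
  ∀ z ∈ Sup {c | Ok S j N c}, fb S z = 0 → ∃ w ∈ Sup {c | Ok S (j + 1) N c}, fb S w = z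

/-! ## 3. Independent sets with labels -/

/-- Independent subsets of `W` in the path on `ℕ`, as increasing lists. -/
def Ind (W : Finset ℕ) (j : ℕ) : Set (List ℕ) :=
  {R | R.Pairwise (fun a b => a + 2 ≤ b) ∧ (∀ r ∈ R, r ∈ W) ∧ R.length = j}

/-- the simplicial boundary, on lists -/
noncomputable def lb : List ℕ → (List ℕ →₀ ℤ)
  | [] => 0
  | r :: R => Finsupp.single R 1 - Finsupp.mapDomain (fun L => r :: L) (lb R)

/-- Exactness in degree `j` of the complex of independent subsets of `W`. -/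
def ExU (W : Finset ℕ) (j : ℕ) : Prop :=
  ∀ z ∈ Sup (Ind W j), Finsupp.linearCombination ℤ lb z = 0 →
    ∃ w ∈ Sup (Ind W (j + 1)), Finsupp.linearCombination ℤ lb w = z

/-- Labels: a pair `(a, b)` meets `R` if `a ∈ R` or `b ∈ R`; labels are only kept on pairs meeting `R`. -/
def res (R : List ℕ) (l : ℕ × ℕ → ℤ) : ℕ × ℕ → ℤ :=
  fun y => if y.1 ∈ R ∨ y.2 ∈ R then l y else 0

/-- Independent subsets of `W` with labels on the pairs in `T` meeting them. -/
def IndL (W : Finset ℕ) (T : Finset (ℕ × ℕ)) (j : ℕ) : Set (List ℕ × (ℕ × ℕ → ℤ)) :=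
  {c | c.1 ∈ Ind W j ∧ (∀ y, y ∉ T → c.2 y = 0) ∧ res c.1 c.2 = c.2}

/-- the boundary with labels -/
noncomputable def lbL (c : List ℕ × (ℕ × ℕ → ℤ)) : (List ℕ × (ℕ × ℕ → ℤ)) →₀ ℤ :=
  Finsupp.mapDomain (fun R' => (R', res R' c.2)) (lb c.1)

/-- Exactness in degree `j` of the complex with labels. -/
def ExL (W : Finset ℕ) (T : Finset (ℕ × ℕ)) (j : ℕ) : Prop :=
  ∀ z ∈ Sup (IndL W T j), Finsupp.linearCombination ℤ lbL z = 0 →
    ∃ w ∈ Sup (IndL W T (j + 1)), Finsupp.linearCombination ℤ lbL w = z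

/-! ## 4. The big group `E` -/

/-- The group `E` of triples `(f, d, m)`, `f` a permutation of `ℝ`, `d : ℝ → ℤ`, `m : ℝ² → ℤ` with the
product `(f,d,m)(g,e,n) = (fg, d + f·e, m + f·n + d ⊗ f·e)`. -/
@[ext] structure E where
  f : Equiv.Perm ℝ
  d : ℝ → ℤ
  m : ℝ → ℝ → ℤ

namespace E

instance : Mul E := ⟨fun a b => ⟨a.f * b.f, fun s => a.d s + b.d (a.f⁻¹ s),
  fun s t => a.m s t + b.m (a.f⁻¹ s) (a.f⁻¹ t) + a.d s * b.d (a.f⁻¹ t)⟩⟩
instance : One E := ⟨⟨1, fun _ => 0, fun _ _ => 0⟩⟩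
instance : Inv E := ⟨fun a => ⟨a.f⁻¹, fun s => - a.d (a.f s),
  fun s t => - a.m (a.f s) (a.f t) + a.d (a.f s) * a.d (a.f t)⟩⟩

@[simp] lemma mul_f (a b : E) : (a * b).f = a.f * b.f := rfl
@[simp] lemma mul_d (a b : E) (s : ℝ) : (a * b).d s = a.d s + b.d (a.f⁻¹ s) := rfl
@[simp] lemma mul_m (a b : E) (s t : ℝ) :
    (a * b).m s t = a.m s t + b.m (a.f⁻¹ s) (a.f⁻¹ t) + a.d s * b.d (a.f⁻¹ t) := rfl
@[simp] lemma one_f : (1 : E).f = 1 := rfl
@[simp] lemma one_d (s : ℝ) : (1 : E).d s = 0 := rfl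
@[simp] lemma one_m (s t : ℝ) : (1 : E).m s t = 0 := rfl
@[simp] lemma inv_f (a : E) : (a⁻¹).f = a.f⁻¹ := rfl
@[simp] lemma inv_d (a : E) (s : ℝ) : (a⁻¹).d s = - a.d (a.f s) := rfl
@[simp] lemma inv_m (a : E) (s t : ℝ) :
    (a⁻¹).m s t = - a.m (a.f s) (a.f t) + a.d (a.f s) * a.d (a.f t) := rfl

instance : Group E := Group.ofLeftAxioms
  (fun a b c => by
    ext s
    · simp
    · simp [add_assoc]
    · simp [mul_inv_rev]; ring)
  (fun a => by
    ext s
    · simp
    · simp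
    · simp)
  (fun a => by
    ext s
    · simp
    · simp
    · simp)

/-- `E` acts on `ℝ`. -/
instance : MulAction E ℝ where
  smul g s := g.f s
  one_smul _ := rfl
  mul_smul _ _ _ := rfl

lemma smul_def (g : E) (s : ℝ) : g • s = g.f s := rfl

end E

/-- `σ i`: slope `2` on `[i, i+1]`, identity on the left, translation by `1` on the right. -/
noncomputable def sg (i : ℕ) (x : ℝ) : ℝ := if x ≤ i then x else if x ≤ i + 1 then 2 * x - i else x + 1

/-- The inverse of `σ i`. -/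
noncomputable def tg (i : ℕ) (x : ℝ) : ℝ := if x ≤ i then x else if x ≤ i + 2 then (x + i) / 2 else x - 1

lemma sg_tg (i : ℕ) (x : ℝ) : sg i (tg i x) = x := by
  unfold sg tg
  split_ifs <;> linarith

lemma tg_sg (i : ℕ) (x : ℝ) : tg i (sg i x) = x := by
  unfold sg tg
  split_ifs <;> linarith

/-- `τ i` as a permutation. -/
noncomputable def tauP (i : ℕ) : Equiv.Perm ℝ := ⟨tg i, sg i, sg_tg i, tg_sg i⟩

@[simp] lemma tauP_apply (i : ℕ) (x : ℝ) : tauP i x = tg i x := rfl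
@[simp] lemma tauP_inv_apply (i : ℕ) (x : ℝ) : (tauP i)⁻¹ x = sg i x := rfl
@[simp] lemma tauP_symm_apply (i : ℕ) (x : ℝ) : (tauP i).symm x = sg i x := rfl

/-- The element `τ i` of `E`: the merge of the leaves `i`, `i+1`, with the jumps `+1` at `i` and `-1` at
`i + 1` of the logarithmic slope of the inverse. -/
noncomputable def tau (i : ℕ) : E :=
  ⟨tauP i, fun s => (if s = i then 1 else 0) - (if s = i + 1 then 1 else 0), fun _ _ => 0⟩

/-- `s` is a natural number `≤ n`. -/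
def NatLe (n : ℕ) (s : ℝ) : Prop := ∃ k : ℕ, k ≤ n ∧ s = k

/-- The subgroup `K n`: only labels on pairs of integers in `[0, n]`. -/
def K (n : ℕ) : Subgroup E where
  carrier := {g | g.f = 1 ∧ (∀ s, g.d s = 0) ∧ ∀ s t, g.m s t ≠ 0 → NatLe n s ∧ NatLe n t}
  one_mem' := ⟨rfl, fun _ => rfl, fun s t h => absurd rfl h⟩
  mul_mem' := by
    rintro a b ⟨ha, ha', ha''⟩ ⟨hb, hb', hb''⟩
    refine ⟨by simp [ha, hb], fun s => by simp [ha', hb'], fun s t h => ?_⟩
    simp only [E.mul_m, ha, ha', zero_mul, add_zero, inv_one, Equiv.Perm.coe_one, id_eq] at h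
    by_cases h1 : a.m s t = 0
    · exact hb'' s t (by simpa [h1] using h)
    · exact ha'' s t h1
  inv_mem' := by
    rintro a ⟨ha, ha', ha''⟩
    refine ⟨by simp [ha], fun s => by simp [ha'], fun s t h => ?_⟩
    simp only [E.inv_m, ha, ha', mul_zero, add_zero, Equiv.Perm.coe_one, id_eq, ne_eq, neg_eq_zero] at h
    exact ha'' s t h

/-- Forests from `n` roots to `N` leaves, modulo labels: products `τ i₁ ⋯ τ iₖ κ` with `iⱼ < n + j - 1`,
`κ ∈ K N`. -/
inductive Fo : ℕ → ℕ → E → Prop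
  | base {n : ℕ} {g : E} (h : g ∈ K n) : Fo n n g
  | step {n N i : ℕ} {g : E} (hi : i < n) (h : Fo (n + 1) N g) : Fo n N (tau i * g)

/-- `GamSet r`: fractions `q p⁻¹` of forests with `r` roots, fixing the integers `0, …, r`. -/
def GamSet (r : ℕ) : Set E :=
  {g | (∃ N p q, Fo r N p ∧ Fo r N q ∧ g * p = q) ∧ ∀ i : ℕ, i ≤ r → g.f i = i}

/-- The group `Γ_r` (`GamSet r` is a subgroup for `r ≥ 1`, see `S_GAM`). -/
def Gam (r : ℕ) : Subgroup E := Subgroup.closure (GamSet r)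

/-- Maps from `[0, n]` to `[0, r]`: `y p = q` with forests `p`, `q`; the integers `0, …, r` are images of
integers in `[0, n]`. -/
def Y (r n : ℕ) : Set E :=
  {y | (∃ N p q, Fo n N p ∧ Fo r N q ∧ y * p = q) ∧ ∀ i : ℕ, i ≤ r → ∃ l : ℕ, l ≤ n ∧ y.f l = i}

/-- The vertices with `n` leaves: cosets `y K_n`, `y ∈ Y r n`. -/
def VY (r n : ℕ) : Type := {v : E ⧸ K n // ∃ y ∈ Y r n, (y : E ⧸ K n) = v}

/-- `θ [r₁, …, r_j] = τ (r₁ - 1) ⋯ τ (r_j - 1)` -/
noncomputable def theta : List ℕ → E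
  | [] => 1
  | r :: R => tau (r - 1) * theta R

/-- The element of `K N` with label `l` -/
noncomputable def kap (l : ℕ × ℕ → ℤ) : E :=
  ⟨1, fun _ => 0, fun s t => if s = ⌊s⌋₊ ∧ t = ⌊t⌋₊ then l (⌊s⌋₊, ⌊t⌋₊) else 0⟩

/-! ## 5. The action and Thompson's group -/

/-- The set `S` of the images in `(0, 1)` of integers. -/
def SS : Set ℝ := {s | 0 < s ∧ s < 1 ∧ ∃ n, ∃ y ∈ Y 1 n, ∃ k : ℕ, k ≤ n ∧ y.f k = s}

/-- An order automorphism of `[0, 1]` is a dyadic piecewise linear map: off a finite set of dyadic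
rationals it is affine with slopes powers of two. -/
def IsThompson (f : Set.Icc (0 : ℝ) 1 ≃o Set.Icc (0 : ℝ) 1) : Prop :=
  ∃ D : Finset ℝ, (∀ x ∈ D, ∃ (a : ℤ) (k : ℕ), x = a / 2 ^ k) ∧
    ∀ x y : Set.Icc (0 : ℝ) 1, x < y → (∀ t ∈ D, ¬ ((x : ℝ) < t ∧ t < y)) →
      ∃ n : ℤ, ∀ z : Set.Icc (0 : ℝ) 1, x ≤ z → z ≤ y →
        ((f z : ℝ) = f x + (2 : ℝ) ^ n * (z - x))

/-- Thompson's group `F` (the group of these maps). -/
def ThF : Subgroup (Set.Icc (0 : ℝ) 1 ≃o Set.Icc (0 : ℝ) 1) := Subgroup.closure {f | IsThompson f}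

end Pool.Agent.Helper40.OL
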