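import Pool.Agent.Helper40.OL.Spec

/-! Assembly for MP_036a22_al. -/

set_option autoImplicit false

namespace Pool.Agent.Helper40.OL

open Pointwise

lemma hy_of (hY : S_Y) (hS : S_SWAP) {r : ℕ} (hr : 1 ≤ r) : HY r :=
  ⟨(hY r hr).1, (hY r hr).2.2.2.1, (hY r hr).2.2.2.2.1, hS.1, hS.2.2⟩

lemma fpn_gam (hY : S_Y) (hS : S_SWAP) (hI : S_INST) (hA : S_ABS) (hD : S_DESC) (hV : S_FPV)
    (hT : S_TFP) {r : ℕ} (hr : 1 ≤ r) (n : ℕ) : TypeFP n (Gam r) := by
  have h : HY r := hy_of hY hS hr
  obtain ⟨h2, h3, h4, h5⟩ := hI r h hr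
  exact hT _ _ (hA (Gam r) (SY h) h2 h3 h4 h5 (hD r h hr) (hV r h hr) n)

/-- the action of `Γ₁` on `S` -/
@[reducible] def actS (hS : S_SINF) : MulAction (Gam 1) SS where
  smul g s := ⟨(g : E).f s, hS.2 g g.2 s s.2⟩
  one_smul s := rfl
  mul_smul g h s := rfl

/-- a strictly increasing self-bijection of a finite set of reals is the identity -/
lemma fix_of_mono {f : ℝ → ℝ} (hf : StrictMono f) {A : Set ℝ} (hA : A.Finite) (h : f '' A = A) :
    ∀ s ∈ A, f s = s := by
  by_contra hcon
  push Not at hcon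
  have hB : {s | s ∈ A ∧ f s ≠ s}.Finite := hA.subset fun s hs => hs.1
  have hBn : {s | s ∈ A ∧ f s ≠ s}.Nonempty := hcon
  obtain ⟨s, ⟨hs, hfs⟩, hmin⟩ := Set.exists_min_image _ id hB hBn
  simp only [id] at hmin
  rcases lt_or_gt_of_ne hfs with h1 | h1
  · have h2 : f s ∈ A := by rw [← h]; exact ⟨s, hs, rfl⟩
    by_cases h3 : f (f s) = f s
    · exact hfs (hf.injective h3)
    · exact absurd (hmin (f s) ⟨h2, h3⟩) (not_le.2 h1)
  · obtain ⟨t, ht, hts⟩ : s ∈ f '' A := by rw [h]; exact hs
    have h3 : t < s := by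
      by_contra h4
      push Not at h4
      have := hf.monotone h4
      rw [hts] at this
      exact absurd this (not_le.2 h1)
    by_cases h4 : f t = t
    · rw [hts] at h4; exact absurd h4 (ne_of_gt h3)
    · exact absurd (hmin t ⟨ht, h4⟩) (not_le.2 h3)

/-- Oligomorphic: finitely many orbits on the subsets with `n` elements, for each `n`. -/
def Oligo (G S : Type) [Group G] [MulAction G S] : Prop :=
  ∀ n : ℕ, ∃ T : Set (Set S), T.Finite ∧ ∀ A : Set S, A.Finite → A.ncard = n →
    ∃ B ∈ T, ∃ g : G, A = g • B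

theorem final (hFP : ∀ r : ℕ, 1 ≤ r → ∀ n, TypeFP n (Gam r)) (hISO : S_ISO) (hY : S_Y) (hTUP : S_TUP)
    (hSTAB : S_STAB) (hSINF : S_SINF) (hPL : S_PL) (hNOF : S_NOF) :
    ∃ (G : Type) (_ : Group G) (S : Type) (_ : MulAction G S), Infinite S ∧ Oligo G S ∧
      (∀ A : Set S, A.Finite → A.Nonempty → ∀ n, TypeFP n (MulAction.stabilizer G A)) ∧
      ¬ ∃ φ : ThF →* G, Function.Injective φ := by
  letI act : MulAction (Gam 1) SS := actS hSINF
  have hsm : ∀ (g : Gam 1) (s : SS), ((g • s : SS) : ℝ) = (g : E).f s := fun _ _ => rfl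
  -- the description of finite subsets
  have key : ∀ A : Set SS, A.Finite → ∃ y ∈ Y 1 (A.ncard + 1), ∀ s : SS, s ∈ A ↔
      ∃ i : ℕ, 1 ≤ i ∧ i ≤ A.ncard ∧ (s : ℝ) = y.f i := by
    intro A hA
    have hA' : ((fun s : SS => (s : ℝ)) '' A).Finite := hA.image _
    have hc : hA'.toFinset.card = A.ncard := by
      rw [← Set.ncard_eq_toFinset_card _ hA', Set.ncard_image_of_injective _ Subtype.val_injective]
    obtain ⟨y, hy, h⟩ := hTUP hA'.toFinset (by
      intro s hs
      rw [Set.Finite.mem_toFinset] at hs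
      obtain ⟨t, -, rfl⟩ := hs
      exact t.2)
    rw [hc] at hy h
    refine ⟨y, hy, fun s => ?_⟩
    rw [← h s, Set.Finite.mem_toFinset]
    constructor
    · intro hs; exact ⟨s, hs, rfl⟩
    · rintro ⟨t, ht, hts⟩
      rw [← Subtype.ext hts]; exact ht
  refine ⟨Gam 1, inferInstance, SS, act, hSINF.1.to_subtype, ?_, ?_, hNOF⟩
  · -- oligomorphic
    intro n
    by_cases hex : ∃ B : Set SS, B.Finite ∧ B.ncard = n
    · obtain ⟨B, hB, hBn⟩ := hex
      refine ⟨{B}, Set.finite_singleton B, fun A hA hAn => ⟨B, rfl, ?_⟩⟩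
      obtain ⟨y, hy, h⟩ := key A hA
      obtain ⟨y', hy', h'⟩ := key B hB
      rw [hAn] at hy h
      rw [hBn] at hy' h'
      obtain ⟨-, -, -, -, -, hd, -, -, hg, -⟩ := hY 1 le_rfl
      have hyp := hg _ y hy
      have hyp' := hg _ y' hy'
      have hgm : y * y'⁻¹ ∈ Gam 1 := by
        refine hd _ y' hy' y hy ?_
        intro i hi
        interval_cases i
        · exact ⟨0, by simpa using hyp'.2.1, by simpa using hyp.2.1⟩
        · exact ⟨n + 1, by simpa using hyp'.2.2.1, by simpa using hyp.2.2.1⟩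
      refine ⟨⟨y * y'⁻¹, hgm⟩, ?_⟩
      have himg : ∀ i : ℕ, (y * y'⁻¹).f (y'.f i) = y.f i := by
        intro i
        show y.f (y'.f.symm (y'.f i)) = y.f i
        rw [Equiv.symm_apply_apply]
      ext s
      rw [Set.mem_smul_set]
      constructor
      · intro hs
        obtain ⟨i, h1, h2, h3⟩ := (h s).1 hs
        -- the point `y'.f i`
        have hmem : y'.f i ∈ SS := by
          refine ⟨?_, ?_, n + 1, y', hy', i, by omega, rfl⟩
          · have := hyp'.1 (show (0 : ℝ) < i by exact_mod_cast h1)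
            rwa [hyp'.2.1] at this
          · have := hyp'.1 (show (i : ℝ) < ((n + 1 : ℕ) : ℝ) by exact_mod_cast (by omega))
            rw [hyp'.2.2.1] at this
            simpa using this
        refine ⟨⟨y'.f i, hmem⟩, (h' _).2 ⟨i, h1, h2, rfl⟩, ?_⟩
        apply Subtype.ext
        rw [hsm, h3]
        exact himg i
      · rintro ⟨t, ht, rfl⟩
        obtain ⟨i, h1, h2, h3⟩ := (h' t).1 ht
        refine (h _).2 ⟨i, h1, h2, ?_⟩
        rw [hsm, h3]
        exact himg i
    · exact ⟨∅, Set.finite_empty, fun A hA hAn => absurd ⟨A, hA, hAn⟩ hex⟩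
  · -- stabilisers
    intro A hA hAne n
    obtain ⟨y, hy, h⟩ := key A hA
    set k := A.ncard with hk
    have hfix : ∀ g : Gam 1, g ∈ MulAction.stabilizer (Gam 1) A ↔
        ∀ i : ℕ, 1 ≤ i → i ≤ k → (g : E).f (y.f i) = y.f i := by
      intro g
      have hyk := ((hY 1 le_rfl).2.2.2.2.2.2.2.2.1) _ y hy
      have hmemSS : ∀ i : ℕ, 1 ≤ i → i ≤ k → y.f i ∈ SS := by
        intro i h1 h2
        refine ⟨?_, ?_, k + 1, y, hy, i, by omega, rfl⟩
        · have := hyk.1 (show (0 : ℝ) < i by exact_mod_cast h1)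
          rwa [hyk.2.1] at this
        · have := hyk.1 (show (i : ℝ) < ((k + 1 : ℕ) : ℝ) by exact_mod_cast (by omega))
          rw [hyk.2.2.1] at this
          simpa using this
      rw [MulAction.mem_stabilizer_iff]
      constructor
      · intro hg i h1 h2
        have hgA : (fun s : ℝ => (g : E).f s) '' ((fun s : SS => (s : ℝ)) '' A) =
            (fun s : SS => (s : ℝ)) '' A := by
          conv_rhs => rw [← hg]
          rw [← Set.image_smul, Set.image_image, Set.image_image]
          rfl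
        refine fix_of_mono (hPL g g.2).1 (hA.image _) hgA (y.f i) ?_
        exact ⟨⟨y.f i, hmemSS i h1 h2⟩, (h _).2 ⟨i, h1, h2, rfl⟩, rfl⟩
      · intro hg
        have hg' : ∀ s ∈ A, g • s = s := by
          intro s hs
          obtain ⟨i, h1, h2, h3⟩ := (h s).1 hs
          apply Subtype.ext
          rw [hsm, h3]
          exact hg i h1 h2
        ext s
        rw [Set.mem_smul_set]
        constructor
        · rintro ⟨t, ht, rfl⟩
          rw [hg' t ht]; exact ht
        · intro hs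
          exact ⟨s, hs, hg' s hs⟩
    -- the isomorphism
    have e : MulAction.stabilizer (Gam 1) A ≃* Gam (k + 1) :=
      { toFun := fun g => ⟨y⁻¹ * ((g : Gam 1) : E) * y,
          (hSTAB k y hy ((g : Gam 1) : E)).1 ⟨(g : Gam 1).2, (hfix g).1 g.2⟩⟩
        invFun := fun g => ⟨⟨y * (g : E) * y⁻¹, by
            refine ((hSTAB k y hy (y * (g : E) * y⁻¹)).2 ?_).1
            have e1 : y⁻¹ * (y * (g : E) * y⁻¹) * y = g := by group
            rw [e1]; exact g.2⟩, by
            refine (hfix _).2 ?_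
            refine ((hSTAB k y hy (y * (g : E) * y⁻¹)).2 ?_).2
            have e1 : y⁻¹ * (y * (g : E) * y⁻¹) * y = g := by group
            rw [e1]; exact g.2⟩
        left_inv := fun g => by
          apply Subtype.ext
          apply Subtype.ext
          show y * (y⁻¹ * ((g : Gam 1) : E) * y) * y⁻¹ = ((g : Gam 1) : E)
          group
        right_inv := fun g => by
          apply Subtype.ext
          show y⁻¹ * (y * (g : E) * y⁻¹) * y = g
          group
        map_mul' := fun g g' => by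
          apply Subtype.ext
          show y⁻¹ * (((g : Gam 1) : E) * ((g' : Gam 1) : E)) * y =
            (y⁻¹ * ((g : Gam 1) : E) * y) * (y⁻¹ * ((g' : Gam 1) : E) * y)
          group }
    exact hISO _ _ e.symm n (hFP (k + 1) (by omega) n)

end Pool.Agent.Helper40.OL
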