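import Pool.Agent.Helper40.OL.Defs

/-!
# Blueprint OL (MP_036a22_al): statements of the parts
-/

set_option autoImplicit false

namespace Pool.Agent.Helper40.OL

/-! ## A. Homological algebra -/

/-- A1. -/
def S_FPEQ : Prop := ∀ (R : Type) [Ring R] (M N : Type) [AddCommGroup M] [Module R M] [AddCommGroup N]
  [Module R N] (_ : M ≃ₗ[R] N) (n : ℕ), FPn (R := R) n M → FPn (R := R) n N

/-- A2 (Schanuel). -/
def S_SCH : Prop := ∀ (R : Type) [Ring R] (M : Type) [AddCommGroup M] [Module R M] (n : ℕ),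
  FPn (R := R) (n + 1) M → ∀ (k : ℕ) (f : (Fin k → R) →ₗ[R] M), Function.Surjective f →
    FPn (R := R) n (LinearMap.ker f)

/-- A3. extension, quotient, kernel, monotonicity. -/
def S_TWO : Prop := ∀ (R : Type) [Ring R] (A B C : Type) [AddCommGroup A] [Module R A] [AddCommGroup B]
  [Module R B] [AddCommGroup C] [Module R C] (i : A →ₗ[R] B) (p : B →ₗ[R] C),
  Function.Injective i → Function.Surjective p → LinearMap.range i = LinearMap.ker p → ∀ n : ℕ,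
    (FPn (R := R) n A → FPn (R := R) n C → FPn (R := R) n B) ∧
    (FPn (R := R) n A → FPn (R := R) (n + 1) B → FPn (R := R) (n + 1) C) ∧
    (FPn (R := R) n B → FPn (R := R) (n + 1) C → FPn (R := R) n A) ∧
    (FPn (R := R) (n + 1) B → FPn (R := R) n B)

/-- A4. the resolution lemma. -/
def S_RES : Prop := ∀ (R : Type) [Ring R] (k : ℕ) (C : ℕ → Type) [∀ i, AddCommGroup (C i)]
  [∀ i, Module R (C i)] (d : ∀ i, C (i + 1) →ₗ[R] C i) (M : Type) [AddCommGroup M] [Module R M]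
  (ε : C 0 →ₗ[R] M), Function.Surjective ε → (0 < k → LinearMap.range (d 0) = LinearMap.ker ε) →
  (∀ i, i + 1 < k → LinearMap.range (d (i + 1)) = LinearMap.ker (d i)) →
  (∀ i n, FPn (R := R) n (C i)) → FPn (R := R) k M

/-- A5. from the recursive form to resolutions. -/
def S_TFP : Prop := ∀ (G : Type) [Group G] (n : ℕ), FPn (R := MonoidAlgebra ℤ G) n (Triv G) → TypeFP n G

/-- A6. invariance under isomorphisms of groups. -/
def S_ISO : Prop := ∀ (G H : Type) [Group G] [Group H] (_ : G ≃* H) (n : ℕ), TypeFP n G → TypeFP n H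

/-! ## B. Permutation modules -/

/-- B1. The quotient of a `G`-set by a free action of `ℤ` commuting with `G`. -/
def S_ZQ : Prop := ∀ (G : Type) [Group G] (X X' : Type) [MulAction G X] [MulAction G X']
  (π : X → X') (t : Equiv.Perm X), (∀ (g : G) x, π (g • x) = g • π x) → Function.Surjective π →
  (∀ (g : G) x, t (g • x) = g • t x) → (∀ x y, π x = π y ↔ ∃ n : ℤ, y = (t ^ n) x) →
  (∀ (n : ℤ) x, (t ^ n) x = x → n = 0) →
  (∀ n, FPn (R := MonoidAlgebra ℤ G) n (PM G X)) → ∀ n, FPn (R := MonoidAlgebra ℤ G) n (PM G X')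

/-- B2. `ℤ[G/H]` for `H` free abelian of finite rank. -/
def S_COSET : Prop := ∀ (G : Type) [Group G] (H : Subgroup G) (d : ℕ)
  (_ : H ≃* Multiplicative (Fin d → ℤ)) (n : ℕ), FPn (R := MonoidAlgebra ℤ G) n (PM G (G ⧸ H))

/-- B3. equivariant bijections and finite disjoint unions. -/
def S_PMSUM : Prop := ∀ (G : Type) [Group G],
  (∀ (X X' : Type) [MulAction G X] [MulAction G X'] (e : X ≃ X') (_ : ∀ (g : G) x, e (g • x) = g • e x)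
    (n : ℕ), FPn (R := MonoidAlgebra ℤ G) n (PM G X) → FPn (R := MonoidAlgebra ℤ G) n (PM G X')) ∧
  (∀ (X ι : Type) [MulAction G X] [Finite ι] (c : X → ι) (hc : ∀ (g : G) x, c (g • x) = c x) (n : ℕ),
    (∀ (i : ι) (act : MulAction G {x // c x = i}),
      (∀ (g : G) (x : {x // c x = i}), ((g • x : {x // c x = i}) : X) = g • (x : X)) →
      FPn (R := MonoidAlgebra ℤ G) n (PM G {x // c x = i})) →
    FPn (R := MonoidAlgebra ℤ G) n (PM G X))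

/-- B4. `G`-sets with finitely many orbits and free abelian stabilisers. -/
def S_ORB : Prop := ∀ (G : Type) [Group G] (X : Type) [MulAction G X],
  Finite (MulAction.orbitRel.Quotient G X) →
  (∀ x : X, ∃ d : ℕ, Nonempty (MulAction.stabilizer G x ≃* Multiplicative (Fin d → ℤ))) →
  ∀ n, FPn (R := MonoidAlgebra ℤ G) n (PM G X)

/-! ## C. The cube complex of a split system -/

/-- C1. basic properties of `bd` and `fb`. -/
def S_BD : Prop := ∀ (G : Type) [Group G] (S : SplitSys G),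
  (∀ c : Cb S, bd S (Finsupp.single c 1) = bdRec S c.1 c.2) ∧
  (∀ c : Cb S, fb S (Finsupp.single c 1) = fbRec S c.1 c.2) ∧
  (∀ (k N : ℕ) (c : Cb S), Ok S (k + 1) N c → fbRec S c.1 c.2 ∈ Sup {c' | Ok S k N c'}) ∧
  (∀ (k N : ℕ) (c : Cb S), Ok S (k + 1) N c →
    bdRec S c.1 c.2 - fbRec S c.1 c.2 ∈ Sup {c' | ∃ N', N' + 1 = N ∧ Ok S k N' c'}) ∧
  (∀ (k N : ℕ) (c : Cb S), Ok S k N c → bd S (bdRec S c.1 c.2) = 0) ∧
  (∀ (g : G) (z : Cb S →₀ ℤ), bd S (Finsupp.mapDomain (fun c => (g • c.1, c.2)) z) =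
    Finsupp.mapDomain (fun c => (g • c.1, c.2)) (bd S z)) ∧
  (∀ (N : ℕ) (c : Cb S), Ok S 1 N c → (bdRec S c.1 c.2).sum (fun _ a => a) = 0)

/-- C2. exactness below `y`. -/
def S_EXB : Prop := ∀ (G : Type) [Group G] (S : SplitSys G), Adm2 S → Adm3 S → ∀ y : Vt S,
  (∀ k, ∀ z ∈ Sup (Below S y (k + 1)), bd S z = 0 → ∃ w ∈ Sup (Below S y (k + 2)), bd S w = z) ∧
  (∀ z ∈ Sup (Below S y 0), ∃ w ∈ Sup (Below S y 1),
    bd S w = z - (z.sum fun _ a => a) • Finsupp.single (y, []) 1)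

/-- C3. exactness of the whole complex. -/
def S_EXD : Prop := ∀ (G : Type) [Group G] (S : SplitSys G), Adm2 S → Adm3 S → Dir S →
  ∀ k, ∀ z ∈ Sup {c : Cb S | ∃ N, Ok S k N c}, bd S z = 0 → (k = 0 → z.sum (fun _ a => a) = 0) →
    ∃ w ∈ Sup {c : Cb S | ∃ N, Ok S (k + 1) N c}, bd S w = z

/-- C4. exactness of the finite stages. -/
def S_FILT : Prop := ∀ (G : Type) [Group G] (S : SplitSys G), Adm2 S → Adm3 S → Dir S →
  ∀ k N₀ : ℕ, (∀ N, N₀ < N → ∀ j ≤ k, DescEx S N j) →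
    (∀ j, j + 1 ≤ k → ∀ z ∈ Sup {c : Cb S | ∃ N ≤ N₀, Ok S j N c}, bd S z = 0 →
      (j = 0 → z.sum (fun _ a => a) = 0) → ∃ w ∈ Sup {c : Cb S | ∃ N ≤ N₀, Ok S (j + 1) N c}, bd S w = z) ∧
    (Nonempty (Vt S) → ∃ x : Vt S, x.1 ≤ N₀)

/-- C5. the abstract theorem. -/
def S_ABS : Prop := ∀ (G : Type) [Group G] (S : SplitSys G), Adm2 S → Adm3 S → Dir S →
  Nonempty (Vt S) → (∀ k, ∃ N₀, ∀ N, N₀ < N → ∀ j ≤ k, DescEx S N j) →
  (∀ n m, FPn (R := MonoidAlgebra ℤ G) m (PM G (S.V n))) →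
  ∀ k, FPn (R := MonoidAlgebra ℤ G) k (Triv G)

/-! ## D. Independent sets -/

/-- D1. -/
def S_IND : Prop := ∀ (W : Finset ℕ) (k : ℕ), 3 * k + 1 ≤ W.card → ∀ j ≤ k, ExU W j

/-- D2. -/
def S_LAB : Prop := ∀ (T : Finset (ℕ × ℕ)) (W : Finset ℕ) (k : ℕ), 3 * k + 1 ≤ W.card →
  ∀ j ≤ k, ExL W T j

/-! ## E. The group `E` -/

/-- E1. conjugation and swap. -/
def S_SWAP : Prop :=
  (∀ (n i : ℕ), ∀ k ∈ K n, (tau i)⁻¹ * k * tau i ∈ K (n + 1)) ∧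
  (∀ i j : ℕ, i < j → ((tau j * tau i)⁻¹ * (tau i * tau (j + 1))).f = 1 ∧
    (∀ s, ((tau j * tau i)⁻¹ * (tau i * tau (j + 1))).d s = 0) ∧
    ∀ s t : ℝ, ((tau j * tau i)⁻¹ * (tau i * tau (j + 1))).m s t ≠ 0 →
      (s = i ∨ s = i + 2 ∨ s = j + 1 ∨ s = j + 3) ∧ (t = i ∨ t = i + 2 ∨ t = j + 1 ∨ t = j + 3)) ∧
  (∀ n i j : ℕ, i < j → j < n → ∃ k ∈ K (n + 2), tau i * tau (j + 1) = tau j * tau i * k)

/-- E2. products of forests and common multiples. -/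
def S_ORE : Prop :=
  (∀ (n N L : ℕ) (p q : E), Fo n N p → Fo N L q → Fo n L (p * q)) ∧
  (∀ (n N N' : ℕ) (p q : E), Fo n N p → Fo n N' q →
    ∃ L p' q', Fo N L p' ∧ Fo N' L q' ∧ p * p' = q * q')

/-- E3. integer points and divisibility. -/
def S_INT : Prop :=
  (∀ (n N : ℕ) (g : E), Fo n N g → n ≤ N ∧ StrictMono g.f ∧ (∀ x : ℝ, x ≤ 0 → g.f x = x) ∧
    (∀ x : ℝ, N ≤ x → g.f x = x - N + n) ∧ (∀ k : ℕ, k ≤ n → ∃ l : ℕ, l ≤ N ∧ g.f l = k) ∧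
    (N = n → g ∈ K n)) ∧
  (∀ (n N a : ℕ) (g : E), Fo n N g → a < n → (∃ l : ℕ, (a : ℝ) < g.f l ∧ g.f l < a + 1) →
    Fo (n + 1) N ((tau a)⁻¹ * g)) ∧
  (∀ (n N a : ℕ) (g : E), Fo (n + 1) N g → a < n →
    ∃ l : ℕ, (a : ℝ) < (tau a * g).f l ∧ (tau a * g).f l < a + 1)

/-- E4. `GamSet r` is a subgroup. -/
def S_GAM : Prop := ∀ r : ℕ, (Gam r : Set E) = GamSet r

/-- E5. properties of `Y`. -/
def S_Y : Prop := ∀ r : ℕ, 1 ≤ r →
  (Y r 0 = ∅) ∧ (Y r r).Nonempty ∧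
  (∀ n, ∀ y ∈ Y r n, ∀ k ∈ K n, y * k ∈ Y r n) ∧
  (∀ n, ∀ y ∈ Y r n, ∀ i < n, y * tau i ∈ Y r (n + 1)) ∧
  (∀ n, ∀ y ∈ Y r n, ∀ g ∈ Gam r, g * y ∈ Y r n) ∧
  (∀ n, ∀ y ∈ Y r n, ∀ y' ∈ Y r n, (∀ i : ℕ, i ≤ r → ∃ l : ℕ, y.f l = i ∧ y'.f l = i) →
    y' * y⁻¹ ∈ Gam r) ∧
  (∀ n n', ∀ y ∈ Y r n, ∀ y' ∈ Y r n', ∃ N p p', Fo n N p ∧ Fo n' N p' ∧ y * p = y' * p') ∧
  (∀ n, ∀ y ∈ Y r n, ∀ k ∈ K n, y * k * y⁻¹ ∈ Gam r) ∧
  (∀ n, ∀ y ∈ Y r n, StrictMono y.f ∧ y.f 0 = 0 ∧ y.f n = r ∧ r ≤ n) ∧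
  (∀ n N, ∀ y ∈ Y r N, ∀ p, Fo n N p → (∀ i : ℕ, i ≤ r → ∃ l : ℕ, l ≤ n ∧ (y * p⁻¹).f l = i) →
    y * p⁻¹ ∈ Y r n)

/-- the facts needed for the definition of the split system -/
structure HY (r : ℕ) : Prop where
  emp : Y r 0 = ∅
  sub : ∀ n, ∀ y ∈ Y r n, ∀ i < n, y * tau i ∈ Y r (n + 1)
  gam : ∀ n, ∀ y ∈ Y r n, ∀ g ∈ Gam r, g * y ∈ Y r n
  conj : ∀ (n i : ℕ), ∀ k ∈ K n, (tau i)⁻¹ * k * tau i ∈ K (n + 1)
  swap : ∀ n i j : ℕ, i < j → j < n → ∃ k ∈ K (n + 2), tau i * tau (j + 1) = tau j * tau i * k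

section SY

variable {r : ℕ} (h : HY r)

lemma VY_pos (h : HY r) {n : ℕ} (v : VY r n) : 0 < n := by
  rcases Nat.eq_zero_or_pos n with rfl | h0
  · obtain ⟨y, hy, -⟩ := v.2
    rw [h.emp] at hy
    exact absurd hy (Set.notMem_empty y)
  · exact h0

/-- right multiplication by `τ i` on cosets -/
noncomputable def rmul (hc : ∀ (n i : ℕ), ∀ k ∈ K n, (tau i)⁻¹ * k * tau i ∈ K (n + 1)) (n i : ℕ) :
    E ⧸ K n → E ⧸ K (n + 1) :=
  Quotient.map' (fun y => y * tau i) (by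
    intro a b hab
    rw [QuotientGroup.leftRel_apply] at hab ⊢
    have := hc n i _ hab
    have e : (a * tau i)⁻¹ * (b * tau i) = (tau i)⁻¹ * (a⁻¹ * b) * tau i := by group
    rw [e]; exact this)

/-- legal index -/
def idx (n i : ℕ) : ℕ := if i < n then i else 0

/-- the action of `Γ_r` on the vertices -/
@[reducible] def VYact (h : HY r) (n : ℕ) : MulAction (Gam r) (VY r n) where
  smul g v := ⟨(g : E) • v.1, by
    obtain ⟨y, hy, hv⟩ := v.2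
    exact ⟨(g : E) * y, h.gam n y hy g g.2, by rw [← hv]; rfl⟩⟩
  one_smul v := by
    apply Subtype.ext
    show ((1 : Gam r) : E) • v.1 = v.1
    simp
  mul_smul g g' v := by
    apply Subtype.ext
    show ((g * g' : Gam r) : E) • v.1 = (g : E) • (g' : E) • v.1
    rw [Subgroup.coe_mul, mul_smul]

/-- The split system of `Γ_r`. -/
noncomputable def SY (h : HY r) : SplitSys (Gam r) where
  V n := VY r n
  act n := VYact h n
  s n i v := ⟨rmul h.conj n (idx n i) v.1, by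
    obtain ⟨y, hy, hv⟩ := v.2
    have hn := VY_pos h v
    have hi : idx n i < n := by
      unfold idx; split_ifs with h1
      · exact h1
      · exact hn
    exact ⟨y * tau (idx n i), h.sub n y hy _ hi, by rw [← hv]; rfl⟩⟩
  s_smul n i g v := by
    apply Subtype.ext
    show rmul h.conj n (idx n i) ((g : E) • v.1) = (g : E) • rmul h.conj n (idx n i) v.1
    obtain ⟨y, hy, hv⟩ := v.2
    rw [← hv]
    show ((((g : E) * y) * tau (idx n i) : E) : E ⧸ K (n + 1)) = ((g : E) * (y * tau (idx n i)) : E)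
    rw [mul_assoc]
  s_s n i j v hij hj := by
    apply Subtype.ext
    show rmul h.conj (n + 1) (idx (n + 1) (j + 1)) (rmul h.conj n (idx n i) v.1) =
      rmul h.conj (n + 1) (idx (n + 1) i) (rmul h.conj n (idx n j) v.1)
    obtain ⟨y, hy, hv⟩ := v.2
    have e1 : idx n i = i := if_pos (by omega)
    have e2 : idx n j = j := if_pos (by omega)
    have e3 : idx (n + 1) (j + 1) = j + 1 := if_pos (by omega)
    have e4 : idx (n + 1) i = i := if_pos (by omega)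
    rw [← hv, e1, e2, e3, e4]
    show (((y * tau i) * tau (j + 1) : E) : E ⧸ K (n + 2)) = ((y * tau j) * tau i : E)
    obtain ⟨k, hk, hkk⟩ := h.swap n i j hij hj
    have e5 : y * tau i * tau (j + 1) = y * tau j * tau i * k := by
      rw [mul_assoc, hkk]; group
    rw [e5]
    exact QuotientGroup.mk_mul_of_mem _ hk

end SY

/-- E6. the split system of `Γ_r` is admissible and directed. -/
def S_INST : Prop := ∀ (r : ℕ) (h : HY r), 1 ≤ r → Adm2 (SY h) ∧ Adm3 (SY h) ∧ Dir (SY h) ∧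
  Nonempty (Vt (SY h))

/-- E7. the elements `θ R`. -/
def S_THETA : Prop :=
  (∀ (N : ℕ) (R : List ℕ), R.Pairwise (fun a b => a + 2 ≤ b) → (∀ r ∈ R, 1 ≤ r ∧ r < N) →
    R.length ≤ N ∧ Fo (N - R.length) N (theta R) ∧
    (∀ r ∈ R, ∀ k : ℕ, (theta R).f r ≠ k) ∧
    (∀ l : ℕ, l ≤ N → l ∉ R → ∃ k : ℕ, k ≤ N - R.length ∧ (theta R).f l = k)) ∧
  (∀ (N r : ℕ) (R₁ R₂ : List ℕ), (R₁ ++ r :: R₂).Pairwise (fun a b => a + 2 ≤ b) →
    (∀ x ∈ R₁ ++ r :: R₂, 1 ≤ x ∧ x < N) →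
    (tau (r - 1 - R₁.length))⁻¹ * theta (R₁ ++ r :: R₂) * (theta (R₁ ++ R₂))⁻¹ ∈
      K (N - (R₁ ++ r :: R₂).length + 1))

/-- the finite set of pairs `(a, b)` with `a, b ≤ N` -/
def TT (N : ℕ) : Finset (ℕ × ℕ) := Finset.range (N + 1) ×ˢ Finset.range (N + 1)

/-- E7b. labels. -/
def S_LABEL : Prop :=
  (∀ (N : ℕ) (k : E), k ∈ K N ↔ ∃ l : ℕ × ℕ → ℤ, (∀ y, y ∉ TT N → l y = 0) ∧ k = kap l) ∧
  (∀ (N : ℕ) (R : List ℕ) (l l' : ℕ × ℕ → ℤ), R.Pairwise (fun a b => a + 2 ≤ b) →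
    (∀ r ∈ R, 1 ≤ r ∧ r < N) → (∀ y, y ∉ TT N → l y = 0) → (∀ y, y ∉ TT N → l' y = 0) →
    ((kap l * (theta R)⁻¹)⁻¹ * (kap l' * (theta R)⁻¹) ∈ K (N - R.length) ↔ res R l = res R l'))

/-- The top vertex of a cube: split the leaves `a₁`, `a₂ + 1`, `a₃ + 2`, … (`k` is the offset, start with
`k = 0`). -/
def topV {G : Type} [Group G] (S : SplitSys G) : ℕ → Vt S → List ℕ → Vt S
  | _, x, [] => x
  | k, x, a :: L => topV S (k + 1) (sV S (a + k) x) L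

/-- C6. `fb` preserves the top vertex. -/
def S_TOP : Prop := ∀ (G : Type) [Group G] (S : SplitSys G) (k N : ℕ) (x : Vt S) (L : List ℕ),
  Ok S k N (x, L) → (topV S 0 x L).1 = N ∧
    ∀ c ∈ (fbRec S x L).support, topV S 0 c.1 c.2 = topV S 0 x L

/-- the possible merges of `y`: division points in `[1, N - 1]` which are not mapped to an integer in
`[0, r]` -/
noncomputable def WW (r N : ℕ) (y : E) : Finset ℕ := by
  classical
  exact (Finset.range N).filter (fun x => 1 ≤ x ∧ ∀ i : ℕ, i ≤ r → y.f x ≠ i)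

/-- E8a. the cubes with top vertex `y` are the independent sets with labels. -/
def S_PSI : Prop := ∀ (r : ℕ) (h : HY r), 1 ≤ r → ∀ (N : ℕ) (y : E) (hy : y ∈ Y r N),
  ∃ Ψ : List ℕ × (ℕ × ℕ → ℤ) → Cb (SY h),
    (∀ j, ∀ c ∈ IndL (WW r N y) (TT N) j, Ok (SY h) j N (Ψ c) ∧
      topV (SY h) 0 (Ψ c).1 (Ψ c).2 = (⟨N, ⟨(y : E ⧸ K N), ⟨y, hy, rfl⟩⟩⟩ : Vt (SY h))) ∧
    (∀ j j', ∀ c ∈ IndL (WW r N y) (TT N) j, ∀ c' ∈ IndL (WW r N y) (TT N) j', Ψ c = Ψ c' → c = c') ∧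
    (∀ j, ∀ q : Cb (SY h), Ok (SY h) j N q →
      topV (SY h) 0 q.1 q.2 = (⟨N, ⟨(y : E ⧸ K N), ⟨y, hy, rfl⟩⟩⟩ : Vt (SY h)) →
      ∃ c ∈ IndL (WW r N y) (TT N) j, Ψ c = q) ∧
    (∀ j, ∀ c ∈ IndL (WW r N y) (TT N) j,
      fbRec (SY h) (Ψ c).1 (Ψ c).2 = Finsupp.mapDomain Ψ (lbL c))

/-- E8b. exactness of the descending complexes. -/
def S_DESC : Prop := ∀ (r : ℕ) (h : HY r), 1 ≤ r → ∀ k, ∃ N₀, ∀ N, N₀ < N → ∀ j ≤ k, DescEx (SY h) N j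

/-- E9. the permutation modules of the vertices are of type `FP_n` for all `n`. -/
def S_FPV : Prop := ∀ (r : ℕ) (h : HY r), 1 ≤ r → ∀ n m : ℕ,
  FPn (R := MonoidAlgebra ℤ (Gam r)) m (PM (Gam r) ((SY h).V n))

/-- E10. `K n` is free abelian of finite rank. -/
def S_KFREE : Prop := ∀ n : ℕ, ∃ d : ℕ, Nonempty (K n ≃* Multiplicative (Fin d → ℤ))

/-! ## F. The action -/

/-- F1. merging. -/
def S_MERGE : Prop := ∀ (k N : ℕ) (j : ℕ → ℕ), StrictMonoOn j (Set.Iic (k + 1)) → j 0 = 0 → j (k + 1) = N →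
  ∃ w, Fo (k + 1) N w ∧ ∀ i ≤ k + 1, w.f (j i) = i

/-- F2. all finite subsets of `S` of the same size are equivalent. -/
def S_TUP : Prop := ∀ A : Finset ℝ, (∀ s ∈ A, s ∈ SS) → ∃ y ∈ Y 1 (A.card + 1),
  ∀ s : ℝ, s ∈ A ↔ ∃ i : ℕ, 1 ≤ i ∧ i ≤ A.card ∧ s = y.f i

/-- F3. stabilisers. -/
def S_STAB : Prop := ∀ k : ℕ, ∀ y ∈ Y 1 (k + 1), ∀ g : E,
  (g ∈ Gam 1 ∧ ∀ i : ℕ, 1 ≤ i → i ≤ k → g.f (y.f i) = y.f i) ↔ y⁻¹ * g * y ∈ Gam (k + 1)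

/-- F4. `S` is infinite and invariant. -/
def S_SINF : Prop := SS.Infinite ∧ ∀ g ∈ Gam 1, ∀ s ∈ SS, g.f s ∈ SS

/-! ## G. No copy of `F` -/

/-- Piecewise linear elements with support in `[0, 1]`; `d` is the jump of the logarithm of the slope of the
inverse. -/
def PL (g : E) : Prop := StrictMono g.f ∧ (∀ s : ℝ, s ≤ 0 ∨ 1 ≤ s → g.f s = s) ∧
  {s : ℝ | g.d s ≠ 0}.Finite ∧ {p : ℝ × ℝ | g.m p.1 p.2 ≠ 0}.Finite ∧
  ∀ s : ℝ, ∃ ρ l : ℤ, g.d s = ρ - l ∧ ∃ ε : ℝ, 0 < ε ∧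
    (∀ t : ℝ, s ≤ t → t ≤ s + ε → g.f⁻¹ t = g.f⁻¹ s + (2 : ℝ) ^ ρ * (t - s)) ∧
    (∀ t : ℝ, s - ε ≤ t → t ≤ s → g.f⁻¹ t = g.f⁻¹ s + (2 : ℝ) ^ l * (t - s))

/-- G1. -/
def S_PL : Prop := ∀ g ∈ Gam 1, PL g

/-- G2. the total jump on a component of the support. -/
def S_JUMP : Prop := ∀ g : E, PL g → ∀ u v : ℝ, u < v → g.f u = u → g.f v = v →
  (∀ x : ℝ, u < x → x < v → g.f x ≠ x) → ∑ᶠ s ∈ Set.Ioo u v, g.d s ≠ 0

/-- G3. elements with disjoint supports do not commute in `E`. -/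
def S_COMM : Prop := ∀ a b : E, PL a → PL b → a.f ≠ 1 → b.f ≠ 1 → (∀ s : ℝ, a.f s = s ∨ b.f s = s) →
  a * b ≠ b * a

/-- G4. commutators are trivial on the support of elements commuting with both. -/
def S_DISJ : Prop := ∀ a₁ a₂ b : E, PL a₁ → PL a₂ → PL b → a₁.f * b.f = b.f * a₁.f →
  a₂.f * b.f = b.f * a₂.f → ∀ s : ℝ, b.f s ≠ s → (a₁.f * a₂.f * a₁.f⁻¹ * a₂.f⁻¹) s = s

/-- G5. two commuting large families in Thompson's group. -/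
def S_THF : Prop := ∃ a₁ a₂ a₃ a₄ b₁ b₂ : ThF,
  (∀ a ∈ [a₁, a₂, a₃, a₄], ∀ b ∈ [b₁, b₂], a * b = b * a) ∧
  (a₁ * a₂ * a₁⁻¹ * a₂⁻¹) * (a₃ * a₄ * a₃⁻¹ * a₄⁻¹) ≠ (a₃ * a₄ * a₃⁻¹ * a₄⁻¹) * (a₁ * a₂ * a₁⁻¹ * a₂⁻¹) ∧
  b₁ * b₂ ≠ b₂ * b₁

/-- G5b (optional). Thompson's group consists of the dyadic piecewise linear maps. -/
def S_THGRP : Prop := ∀ f : Set.Icc (0 : ℝ) 1 ≃o Set.Icc (0 : ℝ) 1, f ∈ ThF ↔ IsThompson f

/-- G6. no copy of `F`. -/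
def S_NOF : Prop := ¬ ∃ φ : ThF →* Gam 1, Function.Injective φ

end Pool.Agent.Helper40.OL
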