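import Pool.Agent.Helper40.OL.Spec

/-! THGRP: dyadic piecewise linear maps of `[0,1]` form a group. -/

set_option autoImplicit false

namespace Pool.Agent.Helper40.OL

abbrev I01 : Type := Set.Icc (0 : ℝ) 1

def Dya (x : ℝ) : Prop := ∃ (a : ℤ) (k : ℕ), x = a / 2 ^ k

lemma dya_zero : Dya 0 := ⟨0, 0, by simp⟩

lemma dya_add {x y : ℝ} (hx : Dya x) (hy : Dya y) : Dya (x + y) := by
  obtain ⟨a, k, rfl⟩ := hx
  obtain ⟨b, l, rfl⟩ := hy
  refine ⟨a * 2 ^ l + b * 2 ^ k, k + l, ?_⟩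
  push_cast
  rw [pow_add]
  field_simp

lemma dya_neg {x : ℝ} (hx : Dya x) : Dya (-x) := by
  obtain ⟨a, k, rfl⟩ := hx
  exact ⟨-a, k, by push_cast; ring⟩

lemma dya_sub {x y : ℝ} (hx : Dya x) (hy : Dya y) : Dya (x - y) := by
  rw [sub_eq_add_neg]; exact dya_add hx (dya_neg hy)

lemma dya_zpow {x : ℝ} (n : ℤ) (hx : Dya x) : Dya ((2 : ℝ) ^ n * x) := by
  obtain ⟨a, k, rfl⟩ := hx
  rcases Int.eq_nat_or_neg n with ⟨m, rfl | rfl⟩
  · refine ⟨2 ^ m * a, k, ?_⟩
    push_cast
    rw [zpow_natCast]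
    ring
  · refine ⟨a, m + k, ?_⟩
    rw [zpow_neg, zpow_natCast, pow_add]
    field_simp

lemma zero_map (f : I01 ≃o I01) : f ⟨0, by norm_num, by norm_num⟩ = ⟨0, by norm_num, by norm_num⟩ := by
  have := f.map_bot
  exact this

/-- the last break point before `x` -/
lemma exists_last (D : Finset ℝ) (hD : ∀ t ∈ D, Dya t) (x : I01) (hx : 0 < (x : ℝ)) :
    ∃ t : I01, t < x ∧ Dya t ∧ (∀ s ∈ D, ¬ ((t : ℝ) < s ∧ s < x)) ∧
      ((D.filter fun s => 0 < s ∧ s < (t : ℝ)).card < (D.filter fun s => 0 < s ∧ s < (x : ℝ)).card ∨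
        (t : ℝ) = 0) := by
  classical
  by_cases hne : (D.filter fun s => 0 < s ∧ s < (x : ℝ)).Nonempty
  · obtain ⟨t, ht, hmax⟩ := Finset.exists_max_image _ id hne
    simp only [id] at hmax
    rw [Finset.mem_filter] at ht
    refine ⟨⟨t, ht.2.1.le, ht.2.2.le.trans x.2.2⟩, ht.2.2, hD t ht.1, ?_, Or.inl ?_⟩
    · rintro s hs ⟨h1, h2⟩
      have h1' : t < s := h1
      have := hmax s (Finset.mem_filter.2 ⟨hs, ht.2.1.trans h1', h2⟩)
      exact absurd this (not_le.2 h1')
    · apply Finset.card_lt_card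
      refine Finset.ssubset_iff_subset_ne.2 ⟨?_, ?_⟩
      · intro s hs
        rw [Finset.mem_filter] at hs ⊢
        exact ⟨hs.1, hs.2.1, hs.2.2.trans ht.2.2⟩
      · intro heq
        have h3 : t ∈ D.filter fun s => 0 < s ∧ s < t := by
          rw [heq]; exact Finset.mem_filter.2 ht
        exact lt_irrefl _ (Finset.mem_filter.1 h3).2.2
  · refine ⟨⟨0, le_rfl, zero_le_one⟩, hx, dya_zero, ?_, Or.inr rfl⟩
    rintro s hs ⟨h1, h2⟩
    exact hne ⟨s, Finset.mem_filter.2 ⟨hs, h1, h2⟩⟩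

lemma dya_map (f : I01 ≃o I01) (hf : IsThompson f) : ∀ x : I01, Dya x → Dya (f x) := by
  obtain ⟨D, hD, h⟩ := hf
  have key : ∀ m : ℕ, ∀ x : I01, (D.filter fun s => 0 < s ∧ s < (x : ℝ)).card ≤ m → Dya x →
      Dya (f x) := by
    intro m
    induction m with
    | zero =>
      intro x hc hx
      by_cases h0 : (x : ℝ) = 0
      · have : x = ⟨0, by norm_num, by norm_num⟩ := Subtype.ext h0
        rw [this, zero_map]; exact dya_zero
      · have hpos : 0 < (x : ℝ) := lt_of_le_of_ne x.2.1 (Ne.symm h0)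
        obtain ⟨t, ht, htd, hno, hcard⟩ := exists_last D hD x hpos
        rcases hcard with hcard | hcard
        · omega
        · have ht0 : t = ⟨0, by norm_num, by norm_num⟩ := Subtype.ext hcard
          obtain ⟨n, hn⟩ := h t x ht hno
          rw [hn x ht.le le_rfl, ht0, zero_map]
          exact dya_add dya_zero (dya_zpow n (dya_sub hx dya_zero))
    | succ m ih =>
      intro x hc hx
      by_cases h0 : (x : ℝ) = 0
      · have : x = ⟨0, by norm_num, by norm_num⟩ := Subtype.ext h0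
        rw [this, zero_map]; exact dya_zero
      · have hpos : 0 < (x : ℝ) := lt_of_le_of_ne x.2.1 (Ne.symm h0)
        obtain ⟨t, ht, htd, hno, hcard⟩ := exists_last D hD x hpos
        obtain ⟨n, hn⟩ := h t x ht hno
        have hft : Dya (f t) := by
          rcases hcard with hcard | hcard
          · exact ih t (by omega) htd
          · have ht0 : t = ⟨0, by norm_num, by norm_num⟩ := Subtype.ext hcard
            rw [ht0, zero_map]; exact dya_zero
        rw [hn x ht.le le_rfl]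
        exact dya_add hft (dya_zpow n (dya_sub hx htd))
  intro x hx
  exact key _ x le_rfl hx

lemma dya_map_symm (f : I01 ≃o I01) (hf : IsThompson f) (y : I01) (hy : Dya y) : Dya (f.symm y) := by
  have hf' := hf
  obtain ⟨D, hD, h⟩ := hf
  set x := f.symm y with hxd
  have hfx : f x = y := f.apply_symm_apply y
  by_cases h0 : (x : ℝ) = 0
  · rw [h0]; exact dya_zero
  · have hpos : 0 < (x : ℝ) := lt_of_le_of_ne x.2.1 (Ne.symm h0)
    obtain ⟨t, ht, htd, hno, -⟩ := exists_last D hD x hpos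
    obtain ⟨n, hn⟩ := h t x ht hno
    have h1 := hn x ht.le le_rfl
    rw [hfx] at h1
    have h2 : (x : ℝ) = t + (2 : ℝ) ^ (-n) * (y - f t) := by
      rw [h1, zpow_neg]
      field_simp
      ring
    rw [h2]
    exact dya_add htd (dya_zpow _ (dya_sub hy (dya_map f hf' t htd)))

lemma isThompson_one : IsThompson (1 : I01 ≃o I01) := by
  refine ⟨∅, by simp, fun x y _ _ => ⟨0, fun z _ _ => ?_⟩⟩
  show (z : ℝ) = x + (2 : ℝ) ^ (0 : ℤ) * (z - x)
  simp

lemma isThompson_mul {f g : I01 ≃o I01} (hf : IsThompson f) (hg : IsThompson g) :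
    IsThompson (f * g) := by
  classical
  have hg' := hg
  obtain ⟨D, hD, h⟩ := hf
  obtain ⟨D', hD', h'⟩ := hg
  refine ⟨D' ∪ (D.image fun t => if ht : t ∈ Set.Icc (0 : ℝ) 1 then ((g.symm ⟨t, ht⟩ : I01) : ℝ) else 0),
    ?_, ?_⟩
  · intro x hx
    rcases Finset.mem_union.1 hx with hx | hx
    · exact hD' x hx
    · obtain ⟨t, ht, rfl⟩ := Finset.mem_image.1 hx
      split_ifs with h1
      · exact dya_map_symm g hg' ⟨t, h1⟩ (hD t ht)
      · exact dya_zero
  · intro x y hxy hno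
    obtain ⟨n, hn⟩ := h' x y hxy fun t ht => hno t (Finset.mem_union_left _ ht)
    obtain ⟨m, hm⟩ := h (g x) (g y) (g.lt_iff_lt.2 hxy) (by
      rintro t ht ⟨h1, h2⟩
      have htI : t ∈ Set.Icc (0 : ℝ) 1 := ⟨(g x).2.1.trans h1.le, h2.le.trans (g y).2.2⟩
      refine hno ((g.symm ⟨t, htI⟩ : I01) : ℝ) (Finset.mem_union_right _ (Finset.mem_image.2
        ⟨t, ht, by rw [dif_pos htI]⟩)) ⟨?_, ?_⟩
      · have h3 : g x < ⟨t, htI⟩ := h1
        have := g.symm.lt_iff_lt.2 h3
        rw [g.symm_apply_apply] at this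
        exact this
      · have h3 : (⟨t, htI⟩ : I01) < g y := h2
        have := g.symm.lt_iff_lt.2 h3
        rw [g.symm_apply_apply] at this
        exact this)
    refine ⟨m + n, fun z h1 h2 => ?_⟩
    show ((f (g z) : I01) : ℝ) = f (g x) + (2 : ℝ) ^ (m + n) * (z - x)
    rw [hm (g z) (g.le_iff_le.2 h1) (g.le_iff_le.2 h2), hn z h1 h2, zpow_add₀ (by norm_num)]
    ring

lemma isThompson_inv {f : I01 ≃o I01} (hf : IsThompson f) : IsThompson f⁻¹ := by
  classical
  have hf' := hf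
  obtain ⟨D, hD, h⟩ := hf
  refine ⟨D.image fun t => if ht : t ∈ Set.Icc (0 : ℝ) 1 then ((f ⟨t, ht⟩ : I01) : ℝ) else 0, ?_, ?_⟩
  · intro x hx
    obtain ⟨t, ht, rfl⟩ := Finset.mem_image.1 hx
    split_ifs with h1
    · exact dya_map f hf' ⟨t, h1⟩ (hD t ht)
    · exact dya_zero
  · intro x y hxy hno
    obtain ⟨n, hn⟩ := h (f.symm x) (f.symm y) (f.symm.lt_iff_lt.2 hxy) (by
      rintro t ht ⟨h1, h2⟩
      have htI : t ∈ Set.Icc (0 : ℝ) 1 := ⟨(f.symm x).2.1.trans h1.le, h2.le.trans (f.symm y).2.2⟩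
      refine hno ((f ⟨t, htI⟩ : I01) : ℝ) (Finset.mem_image.2 ⟨t, ht, by rw [dif_pos htI]⟩) ⟨?_, ?_⟩
      · have h3 : f.symm x < ⟨t, htI⟩ := h1
        have := f.lt_iff_lt.2 h3
        rw [f.apply_symm_apply] at this
        exact this
      · have h3 : (⟨t, htI⟩ : I01) < f.symm y := h2
        have := f.lt_iff_lt.2 h3
        rw [f.apply_symm_apply] at this
        exact this)
    refine ⟨-n, fun z h1 h2 => ?_⟩
    show ((f.symm z : I01) : ℝ) = f.symm x + (2 : ℝ) ^ (-n) * (z - x)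
    have h3 := hn (f.symm z) (f.symm.le_iff_le.2 h1) (f.symm.le_iff_le.2 h2)
    rw [f.apply_symm_apply, f.apply_symm_apply] at h3
    rw [h3, zpow_neg]
    field_simp
    ring

theorem thgrp_thm : S_THGRP := by
  intro f
  constructor
  · intro hf
    refine Subgroup.closure_induction (p := fun g _ => IsThompson g) ?_ ?_ ?_ ?_ hf
    · intro x hx; exact hx
    · exact isThompson_one
    · intro x y _ _ hx hy; exact isThompson_mul hx hy
    · intro x _ hx; exact isThompson_inv hx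
  · intro hf
    exact Subgroup.subset_closure hf

end Pool.Agent.Helper40.OL
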